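import Pool.Agent.SirF.Main3
import Pool.Agent.SirP.TrF

/-!
# MP_2cd2dd_an : the set of couplings for `λ₂/λ₁` large

For `λ₂/λ₁` large and `μ₁/μ₂` in a compact range the system has a ground state exactly for `0 ≤ β < τ₂` and
`β ≥ b⋆`, and `b⋆` is asymptotically `μ₁ κ / (2 γ)`, far below `τ₁`. In the plane this holds for all `β`; in dimension
three for all `β` outside `((1 - e)^(1/2) (μ₁μ₂)^(1/2), t μ₂)`, where `t` is any number above the lowest eigenvalue of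
`-Δφ = t w² φ`, `w` the scalar ground state (the interval is empty for `μ₁/μ₂ ≥ t²/(1 - e)`).
-/

namespace Pool.Agent.Results.MP_2cd2dd_an.FarDiagonal

open SirP

theorem result (N : ℕ) (hN : N = 2 ∨ N = 3) (M e t : ℝ) (hM : 1 ≤ M) (he : 0 < e) (he1 : e < 1)
    (ht : 0 < t) (hs : N = 2 ∨ 3 / 4 < t ∨
      ∀ w : HF N, SGS 1 1 w → ∃ p : HF N, ip 0 p p < t * Q4 w w p p) :
    ∃ T : ℝ, 1 ≤ T ∧ ∀ l1 l2 m1 m2 : ℝ, 0 < l1 → 0 < m1 → 0 < m2 → T * l1 ≤ l2 →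
      m1 ≤ M * m2 → m2 ≤ M * m1 →
      ∃ bs : ℝ, (1 - e) * (m1 * kap N l1 l2 / (2 * gam N l1)) ≤ bs ∧
        bs ≤ (1 + e) * (m1 * kap N l1 l2 / (2 * gam N l1)) ∧ bs ≤ e * tau N l1 m1 l2 ∧
        ∀ be : ℝ, (N = 2 ∨ be ≤ 0 ∨ be ^ 2 ≤ (1 - e) * (m1 * m2) ∨ t * m2 ≤ be) →
          (HasGS N l1 l2 m1 m2 be ↔ (0 ≤ be ∧ be < tau N l2 m2 l1) ∨ bs ≤ be) := by
  have hs' : N = 2 ∨ 3 / 4 < t ∨ Sir.HT N t := by
    refine hs.imp_right fun h => h.imp_right fun h w hw => ?_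
    have : Sir.Dim N := ⟨hN⟩
    obtain ⟨w0, hw0⟩ := exists_Eqv' w
    obtain ⟨p, hp⟩ := h w0 ((SGS_eqv hw0).2 ((Sir.SGS_iff one_pos one_pos w).2 hw))
    obtain ⟨z, hz⟩ := exists_Eqv p
    refine ⟨z, ?_⟩
    rw [ip_eqv hz hz, Q4_eqv hw0 hw0 hz hz] at hp
    rw [Sir.Q4_swapp z z w w]
    exact hp
  obtain ⟨T, hT, H⟩ := Sir.main_far3 N hN M e t hM he he1 ht hs'
  refine ⟨T, hT, fun l1 l2 m1 m2 h1 h2 h3 h4 h5 h6 => ?_⟩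
  obtain ⟨bs, b1, b2, b3, b4⟩ := H l1 l2 m1 m2 h1 h2 h3 h4 h5 h6
  refine ⟨bs, ?_, ?_, ?_, fun be hb => ?_⟩
  · rw [kap_eq, gam_eq]
    exact b1
  · rw [kap_eq, gam_eq]
    exact b2
  · rw [tau_eq]
    exact b3
  · rw [HasGS_eq, tau_eq]
    exact b4 be hb

end Pool.Agent.Results.MP_2cd2dd_an.FarDiagonal
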