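import Pool.Agent.Sir.FinU
import Pool.Agent.SirP.Tr

/-!
# MP_2cd2dd_an : the exact set of couplings near the diagonal

For `λ₂` close to `λ₁` (depending only on the dimension and on `ε`) and all `μ₁, μ₂ > 0` outside the thin sector
`|log(μ₁/μ₂) + (4 - N)/2 · log(λ₂/λ₁)| < ε · |log(λ₂/λ₁)|`, the system has a ground state exactly when
`0 ≤ β < min(τ₁, τ₂)` or `β > max(τ₁, τ₂)`.
-/

namespace Pool.Agent.Results.MP_2cd2dd_an.NearDiagonal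

open SirP

theorem result (N : ℕ) (hN : N = 2 ∨ N = 3) (ep : ℝ) (hep : 0 < ep) :
    ∃ d : ℝ, 0 < d ∧ ∀ l1 l2 m1 m2 : ℝ, 0 < l1 → 0 < l2 → 0 < m1 → 0 < m2 → l1 ≠ l2 →
      |Real.log (l2 / l1)| < d →
      ep * |Real.log (l2 / l1)| ≤
        |Real.log (m1 / m2) + (4 - (N : ℝ)) / 2 * Real.log (l2 / l1)| →
      ∀ be : ℝ, (HasGS N l1 l2 m1 m2 be ↔
        (0 ≤ be ∧ be < min (tau N l1 m1 l2) (tau N l2 m2 l1)) ∨
          max (tau N l1 m1 l2) (tau N l2 m2 l1) < be) := by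
  obtain ⟨d, hd, H⟩ := Sir.main_uni N hN ep hep
  refine ⟨d, hd, fun l1 l2 m1 m2 h1 h2 h3 h4 h5 h6 h7 be => ?_⟩
  rw [HasGS_eq, tau_eq, tau_eq]
  exact H l1 l2 m1 m2 h1 h2 h3 h4 h5 h6 h7 be

end Pool.Agent.Results.MP_2cd2dd_an.NearDiagonal
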